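import Mathlib
import Pool.Agent.H.MP_77abd0_co.A

set_option autoImplicit false

namespace Pool.Agent.Results.MP_77abd0_co.Real

open SimpleGraph Finset Polynomial

/-- the clique polynomial -/
noncomputable def cp {V : Type} [Fintype V] [DecidableEq V] (G : SimpleGraph V)
    [DecidableRel G.Adj] : ℤ[X] :=
  ∑ k ∈ range (Fintype.card V + 1), C ((G.cliqueFinset k).card : ℤ) * X ^ k

theorem result (l : ℕ) (V : Type) [Fintype V] [DecidableEq V] (G : SimpleGraph V)
    [DecidableRel G.Adj] (hn : l + 1 ≤ Fintype.card V)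
    (hc : ∀ S : Finset V, S.card < l → (G.induce ((S : Set V)ᶜ)).Connected)
    (hG : ∀ n, 4 ≤ n → IsEmpty (cycleGraph n ↪g G))
    (hK : G.CliqueFree (l + 3)) (z : ℂ) (hz : aeval z (cp G) = 0) : z.im = 0 := by
  refine Pool.Agent.H.MP_77abd0_co.main G l hG hn hc hK z ?_
  rw [← hz, cp, map_sum, ← sum_fiberwise_of_maps_to (g := Finset.card)
    (t := range (Fintype.card V + 1)) fun s _ => mem_range.2 (Nat.lt_succ_of_le (card_le_univ s))]
  refine sum_congr rfl fun k _ => ?_
  have e : (univ.filter fun s : Finset V => G.IsClique (s : Set V)).filter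
      (fun s => s.card = k) = G.cliqueFinset k := by
    ext s; simp [mem_cliqueFinset_iff, isNClique_iff]
  rw [e, sum_congr rfl fun s hs => congrArg (fun t : ℕ => z ^ t)
    (mem_cliqueFinset_iff.1 hs).card_eq]
  simp

end Pool.Agent.Results.MP_77abd0_co.Real
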